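import Mathlib

/-! # Smooth and rough parts of `n!` -/

set_option autoImplicit false

namespace GRL24

open Finset

/-- The part of `a` composed of primes larger than `y`. -/
def rough (y a : ℕ) : ℕ := ∏ p ∈ a.primeFactors with y < p, p ^ (a.factorization p)

/-- The part of `a` composed of primes at most `y`. -/
def smoothPart (y a : ℕ) : ℕ := ∏ p ∈ a.primeFactors with ¬ y < p, p ^ (a.factorization p)

theorem rough_mul_smooth (y : ℕ) {a : ℕ} (ha : a ≠ 0) : rough y a * smoothPart y a = a := by
  unfold rough smoothPart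
  rw [Finset.prod_filter_mul_prod_filter_not]
  exact Nat.prod_factorization_pow_eq_self ha

theorem rough_pos (y a : ℕ) : 0 < rough y a := by
  unfold rough
  apply Finset.prod_pos
  intro p hp
  exact pow_pos (Nat.pos_of_mem_primeFactors (Finset.mem_filter.mp hp).1) _

theorem smoothPart_pos (y a : ℕ) : 0 < smoothPart y a := by
  unfold smoothPart
  apply Finset.prod_pos
  intro p hp
  exact pow_pos (Nat.pos_of_mem_primeFactors (Finset.mem_filter.mp hp).1) _

theorem coprime_rough (y a : ℕ) : Nat.Coprime y.factorial (rough y a) := by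
  unfold rough
  apply Nat.Coprime.prod_right
  intro p hp
  rw [Finset.mem_filter] at hp
  apply Nat.Coprime.pow_right
  have hpp := Nat.prime_of_mem_primeFactors hp.1
  rw [Nat.coprime_comm, hpp.coprime_iff_not_dvd, hpp.dvd_factorial]
  omega

theorem le_rough {y a p : ℕ} (ha : a ≠ 0) (hp : p.Prime) (hy : y < p) (hpa : p ∣ a) :
    y + 1 ≤ rough y a := by
  have hmem : p ∈ a.primeFactors.filter (fun p => y < p) := by
    rw [Finset.mem_filter, Nat.mem_primeFactors]
    exact ⟨⟨hp, hpa, ha⟩, hy⟩
  have h1 : p ^ (a.factorization p) ∣ rough y a := Finset.dvd_prod_of_mem _ hmem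
  have h2 : p ∣ p ^ (a.factorization p) :=
    dvd_pow_self p ((hp.factorization_pos_of_dvd ha hpa).ne')
  have h3 := Nat.le_of_dvd (rough_pos y a) (h2.trans h1)
  omega

theorem factorial_pow_dvd (y k : ℕ) : y.factorial ^ k ∣ (k * y).factorial := by
  induction k with
  | zero => simp
  | succ k ih =>
    rw [pow_succ, Nat.succ_mul]
    exact (Nat.mul_dvd_mul ih dvd_rfl).trans (Nat.factorial_mul_factorial_dvd_factorial_add _ _)

open Classical in
/-- The numbers up to `n` with a prime factor larger than `y`. -/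
noncomputable def big (y n : ℕ) : Finset ℕ := (Icc 1 n).filter (fun a => ∃ p, p.Prime ∧ y < p ∧ p ∣ a)

theorem main_ineq (y n : ℕ) (hy : 1 ≤ y) :
    y.factorial ^ (n / y) * (y + 1) ^ (big y n).card ≤ n.factorial := by
  classical
  have h1 : ∏ a ∈ Icc 1 n, a = n.factorial := by
    have h0 := Finset.prod_Ico_id_eq_factorial n
    have h00 : Ico 1 (n + 1) = Icc 1 n := by
      ext a
      rw [Finset.mem_Ico, Finset.mem_Icc]
      omega
    rw [← h00]
    exact h0
  have h2 : (∏ a ∈ Icc 1 n, rough y a) * (∏ a ∈ Icc 1 n, smoothPart y a) = n.factorial := by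
    rw [← Finset.prod_mul_distrib, ← h1]
    apply Finset.prod_congr rfl
    intro a ha
    rw [Finset.mem_Icc] at ha
    exact rough_mul_smooth y (by omega)
  have h3 : y.factorial ^ (n / y) ∣ n.factorial :=
    (factorial_pow_dvd y (n / y)).trans (Nat.factorial_dvd_factorial (Nat.div_mul_le_self n y))
  have hcop : Nat.Coprime (y.factorial ^ (n / y)) (∏ a ∈ Icc 1 n, rough y a) := by
    apply Nat.Coprime.pow_left
    exact Nat.Coprime.prod_right (fun a _ => coprime_rough y a)
  have h4 : y.factorial ^ (n / y) ∣ ∏ a ∈ Icc 1 n, smoothPart y a := by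
    rw [← h2] at h3
    exact hcop.dvd_of_dvd_mul_left h3
  have h5 : y.factorial ^ (n / y) ≤ ∏ a ∈ Icc 1 n, smoothPart y a :=
    Nat.le_of_dvd (Finset.prod_pos (fun a _ => smoothPart_pos y a)) h4
  have h6 : (y + 1) ^ (big y n).card ≤ ∏ a ∈ Icc 1 n, rough y a := by
    calc (y + 1) ^ (big y n).card = ∏ a ∈ Icc 1 n, (if (∃ p, p.Prime ∧ y < p ∧ p ∣ a)
          then y + 1 else 1) := by
          rw [Finset.prod_ite, Finset.prod_const, Finset.prod_const_one, mul_one]
          congr 2
      _ ≤ ∏ a ∈ Icc 1 n, rough y a := by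
          apply Finset.prod_le_prod'
          intro a ha
          rw [Finset.mem_Icc] at ha
          split_ifs with hex
          · obtain ⟨p, hp, hyp, hpa⟩ := hex
            exact le_rough (by omega) hp hyp hpa
          · exact rough_pos y a
  calc y.factorial ^ (n / y) * (y + 1) ^ (big y n).card
      ≤ (∏ a ∈ Icc 1 n, smoothPart y a) * (∏ a ∈ Icc 1 n, rough y a) := Nat.mul_le_mul h5 h6
    _ = n.factorial := by rw [mul_comm]; exact h2

end GRL24
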