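import Mathlib
import Pool.Agent.GRL24.Smooth

/-! # Partial isomorphisms and proper subgroups -/

set_option autoImplicit false

namespace GRL24

open Finset

/-- `h` is a partial `G`-isomorphism: a bijection from `{1, ..., n}` to `G` with
`h (a b) = h a + h b` whenever `a, b, a b` lie in `{1, ..., n}`. -/
def IsPartialIso (n : ℕ) (G : Type) [AddCommGroup G] (h : ℕ → G) : Prop :=
  Set.BijOn h (Set.Icc 1 n) Set.univ ∧
    ∀ a b : ℕ, 1 ≤ a → 1 ≤ b → a * b ≤ n → h (a * b) = h a + h b

theorem mem_of_smooth {n y : ℕ} {G : Type} [AddCommGroup G] {h : ℕ → G}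
    (hh : IsPartialIso n G h) (H : AddSubgroup G)
    (hall : ∀ p, p.Prime → p ≤ y → p ≤ n → h p ∈ H) :
    ∀ a, 1 ≤ a → a ≤ n → (∀ p, p.Prime → p ∣ a → p ≤ y) → h a ∈ H := by
  intro a
  induction a using Nat.strong_induction_on with
  | _ a ih =>
    intro ha1 han hsm
    by_cases ha : a = 1
    · subst ha
      have h1 := hh.2 1 1 le_rfl le_rfl (by simpa using han)
      rw [mul_one] at h1
      have h2 : h 1 = 0 := by
        have h3 : h 1 + 0 = h 1 + h 1 := by rw [add_zero]; exact h1
        exact (add_left_cancel h3).symm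
      rw [h2]
      exact H.zero_mem
    · have hp := Nat.minFac_prime ha
      obtain ⟨b, hb⟩ := Nat.minFac_dvd a
      have hb0 : b ≠ 0 := by
        rintro rfl
        rw [mul_zero] at hb
        omega
      have hb1 : 1 ≤ b := Nat.one_le_iff_ne_zero.mpr hb0
      have hp2 := hp.two_le
      have hba : b < a := by
        rw [hb]
        calc b < 2 * b := by omega
          _ ≤ a.minFac * b := Nat.mul_le_mul_right b hp2
      have hpa : a.minFac ≤ a := Nat.minFac_le (by omega)
      have h1 := hh.2 a.minFac b (by omega) hb1 (by rw [← hb]; exact han)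
      rw [← hb] at h1
      rw [h1]
      apply H.add_mem
      · exact hall _ hp (hsm _ hp (Nat.minFac_dvd a)) (by omega)
      · apply ih b hba hb1 (by omega)
        intro p hpp hpb
        exact hsm p hpp (hb ▸ (Dvd.dvd.mul_left hpb _))

theorem card_big_ge {n y : ℕ} {G : Type} [AddCommGroup G] [Finite G] {h : ℕ → G}
    (hh : IsPartialIso n G h) (H : AddSubgroup G)
    (hall : ∀ p, p.Prime → p ≤ y → p ≤ n → h p ∈ H) :
    n - Nat.card H ≤ (big y n).card := by
  classical
  have hFin : Fintype G := Fintype.ofFinite G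
  have h1 : ((Icc 1 n) \ (big y n)).card ≤ Nat.card H := by
    rw [Nat.card_eq_fintype_card]
    have hmem : ∀ a ∈ (Icc 1 n) \ (big y n), h a ∈ H := by
      intro a ha
      rw [Finset.mem_sdiff, Finset.mem_Icc] at ha
      obtain ⟨⟨h1, h2⟩, h3⟩ := ha
      apply mem_of_smooth hh H hall a h1 h2
      intro p hp hpa
      by_contra hlt
      apply h3
      unfold big
      rw [Finset.mem_filter, Finset.mem_Icc]
      exact ⟨⟨h1, h2⟩, p, hp, not_le.mp hlt, hpa⟩
    have h2 : ((Icc 1 n) \ (big y n)).card ≤ (univ.filter (fun g : G => g ∈ H)).card := by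
      apply Finset.card_le_card_of_injOn h
      · intro a ha
        rw [Finset.mem_coe, Finset.mem_filter]
        exact ⟨Finset.mem_univ _, hmem a ha⟩
      · intro a ha b hb hab
        rw [Finset.mem_coe, Finset.mem_sdiff, Finset.mem_Icc] at ha hb
        exact hh.1.injOn ha.1 hb.1 hab
    rw [Fintype.card_subtype]
    convert h2
  have h2 : ((Icc 1 n) \ (big y n)).card + (big y n).card = n := by
    rw [Finset.card_sdiff_add_card_eq_card]
    · rw [Nat.card_Icc]; omega
    · unfold big
      exact Finset.filter_subset _ _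
  omega

end GRL24
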